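import Pool.Agent.Run7.h878.TD.Hard

/-!
# Deciding equality of the total domination number and the sub-total domination number is NP-complete

Given a graph without isolated vertices, is its total domination number equal to the least `k` such that the sum of
its `k` largest degrees is at least the number of vertices?

The reduction is from 3-SAT. For a formula with `m` clauses put `K = 3 m + 2`. The `2 K` literals form a clique; each
variable has a block of `B` vertices adjacent to exactly its two literals, and each clause has a vertex adjacent to its
literals. For `B = K (2 K + m)` the literals are the vertices of largest degree and the sub-total domination number is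
`K`; a total dominating set with `K` vertices consists of one literal for every variable.
-/

namespace Pool.Agent.Results.MP_bfbf95_lc.EqualityNPComplete

open Pool.Agent.Lib.CX Pool.Agent.Run7.h878.TD

/-- **Deciding `γ_t(G) = sub_t(G)` is NP-complete**, both as a problem on graphs without isolated vertices and as the
problem whether a given graph has no isolated vertices and satisfies the equality. -/
theorem result :
    NPComplete (fun a : {a : Gr // NoIsolated a.G} => totalDom a.1.G = subTotal a.1.G) ∧
      NPComplete (fun a : Gr => NoIsolated a.G ∧ totalDom a.G = subTotal a.G) :=
  ⟨⟨eqn_inNP.red ⟨fun a => a.1, PT.id.val, fun a => ⟨fun h => ⟨a.2, h⟩, fun h => h.2⟩⟩, eqT_hard⟩,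
    ⟨eqn_inNP, eqT_hard.red ⟨fun a => a.1, PT.id.val, fun a => ⟨fun h => ⟨a.2, h⟩, fun h => h.2⟩⟩⟩⟩

end Pool.Agent.Results.MP_bfbf95_lc.EqualityNPComplete
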